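import Pool.Agent.E8helper1.TX.Dim

/-! # Extension of scalars for spaces of matrices -/

set_option autoImplicit false
set_option linter.unusedSectionVars false

namespace Pool.Agent.E8helper63.TX

open Matrix Module Pool.Agent.E8helper1.TX

section

variable {K : Type} [Field K] [Algebra K ℂ]

lemma map_alg_map {N : Type} (M : Matrix N N K) (f : ℂ →ₗ[K] K) :
    (M.map (algebraMap K ℂ)).map f = f 1 • M := by
  ext i j
  simp only [Matrix.map_apply, Matrix.smul_apply, smul_eq_mul]
  rw [Algebra.algebraMap_eq_smul_one, map_smul, smul_eq_mul, mul_comm]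

variable {N : Type} [Fintype N] [DecidableEq N]

lemma slice_mem {A : Submodule K (Matrix N N K)} {M : Matrix N N ℂ} (hM : M ∈ bcM K A)
    (f : ℂ →ₗ[K] K) : M.map f ∈ A := by
  have h : ∀ f : ℂ →ₗ[K] K, M.map f ∈ A := by
    unfold bcM at hM
    induction hM using Submodule.span_induction with
    | mem x hx =>
      obtain ⟨m, hm, rfl⟩ := hx
      intro f
      simp only
      rw [map_alg_map]
      exact A.smul_mem _ hm
    | zero =>
      intro f
      have : (0 : Matrix N N ℂ).map f = 0 := by
        ext i j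
        simp
      rw [this]
      exact A.zero_mem
    | add x y _ _ hx hy =>
      intro f
      have : (x + y).map f = x.map f + y.map f := by
        ext i j
        simp
      rw [this]
      exact A.add_mem (hx f) (hy f)
    | smul c x _ hx =>
      intro f
      have : (c • x).map f = x.map (f ∘ₗ (LinearMap.mulLeft K c)) := by
        ext i j
        simp
      rw [this]
      exact hx _
  exact h f

lemma mem_of_slice {A : Submodule K (Matrix N N K)} {M : Matrix N N ℂ}
    (h : ∀ f : ℂ →ₗ[K] K, M.map f ∈ A) : M ∈ bcM K A := by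
  classical
  let b := Module.Basis.ofVectorSpace K ℂ
  let S := Finset.univ.biUnion fun p : N × N => (b.repr (M p.1 p.2)).support
  have h1 : M = ∑ β ∈ S, b β • (M.map (b.coord β)).map (algebraMap K ℂ) := by
    ext i j
    rw [Matrix.sum_apply]
    simp only [Matrix.smul_apply, Matrix.map_apply, smul_eq_mul, Basis.coord_apply]
    have h2 := b.linearCombination_repr (M i j)
    conv_lhs => rw [← h2]
    rw [Finsupp.linearCombination_apply, Finsupp.sum]
    rw [← Finset.sum_subset (s₁ := (b.repr (M i j)).support) (s₂ := S)]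
    · refine Finset.sum_congr rfl fun β _ => ?_
      rw [Algebra.smul_def, mul_comm]
    · exact Finset.subset_biUnion_of_mem (fun p : N × N => (b.repr (M p.1 p.2)).support)
        (Finset.mem_univ (i, j))
    · intro β _ hβ
      rw [Finsupp.notMem_support_iff.1 hβ, map_zero, mul_zero]
  rw [h1]
  refine Submodule.sum_mem _ fun β _ => Submodule.smul_mem _ _ (Submodule.subset_span ?_)
  exact ⟨_, h (b.coord β), rfl⟩

lemma map_mem {A : Submodule K (Matrix N N K)} {M : Matrix N N K} (h : M ∈ A) :
    M.map (algebraMap K ℂ) ∈ bcM K A := Submodule.subset_span ⟨M, h, rfl⟩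

lemma mul_map_map (A : Matrix N N ℂ) (y : Matrix N N K) (f : ℂ →ₗ[K] K) :
    (A * y.map (algebraMap K ℂ)).map f = A.map f * y := by
  ext i k
  simp only [Matrix.map_apply, Matrix.mul_apply, map_sum]
  refine Finset.sum_congr rfl fun j _ => ?_
  rw [mul_comm, ← Algebra.smul_def, map_smul, smul_eq_mul, mul_comm]

lemma map_mul_map (A : Matrix N N ℂ) (y : Matrix N N K) (f : ℂ →ₗ[K] K) :
    (y.map (algebraMap K ℂ) * A).map f = y * A.map f := by
  ext i k
  simp only [Matrix.map_apply, Matrix.mul_apply, map_sum]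
  refine Finset.sum_congr rfl fun j _ => ?_
  rw [← Algebra.smul_def, map_smul, smul_eq_mul]

lemma exists_dual_ne {z : ℂ} (h : ∀ f : ℂ →ₗ[K] K, f z = 0) : z = 0 :=
  (Module.forall_dual_apply_eq_zero_iff K z).1 h

lemma eq_of_slices {A B : Matrix N N ℂ} (h : ∀ f : ℂ →ₗ[K] K, A.map f = B.map f) : A = B := by
  ext i j
  rw [← sub_eq_zero]
  refine exists_dual_ne (K := K) fun f => ?_
  have h1 := congrFun (congrFun (h f) i) j
  simp only [Matrix.map_apply] at h1
  rw [map_sub, h1, sub_self]

lemma dpow_map {n : Type} [Fintype n] [DecidableEq n] (x : Matrix n n ℂ) (m : ℕ)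
    (f : ℂ →ₗ[K] K) : (dpow x m).map f = dpowK K (x.map f) m := by
  ext I J
  simp only [Matrix.map_apply, dpow, dpowK, map_sum]
  refine Finset.sum_congr rfl fun i _ => ?_
  split_ifs
  · rfl
  · rw [map_zero]

end

theorem t_DIM1 : S_DIM1 := by
  intro K _ _ N _ _ A
  let v := Module.finBasis K A
  let w : Fin (finrank K A) → Matrix N N ℂ := fun i => ((v i : Matrix N N K)).map (algebraMap K ℂ)
  have hw : LinearIndependent ℂ w := by
    rw [Fintype.linearIndependent_iff]
    intro c hc i
    refine exists_dual_ne (K := K) fun f => ?_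
    have h1 : ∑ i, f (c i) • v i = 0 := by
      apply Subtype.ext
      rw [Submodule.coe_sum, ZeroMemClass.coe_zero]
      ext a b
      have h2 := congrArg f (congrFun (congrFun hc a) b)
      rw [Matrix.sum_apply, map_sum, Matrix.zero_apply, map_zero] at h2
      rw [Matrix.sum_apply, Matrix.zero_apply, ← h2]
      refine Finset.sum_congr rfl fun i _ => ?_
      simp only [w, Matrix.smul_apply, Matrix.map_apply, smul_eq_mul, Submodule.coe_smul]
      rw [mul_comm (c i), ← Algebra.smul_def, map_smul, smul_eq_mul, mul_comm]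
    exact Fintype.linearIndependent_iff.1 v.linearIndependent _ h1 i
  have hspan : bcM K A = Submodule.span ℂ (Set.range w) := by
    apply le_antisymm
    · unfold bcM
      rw [Submodule.span_le]
      rintro _ ⟨m, hm, rfl⟩
      have h1 : m.map (algebraMap K ℂ) = ∑ i, algebraMap K ℂ (v.repr ⟨m, hm⟩ i) • w i := by
        have h2 := v.sum_repr ⟨m, hm⟩
        have h3 := congrArg (fun x : A => (x : Matrix N N K)) h2
        simp only [Submodule.coe_sum, Submodule.coe_smul] at h3
        conv_lhs => rw [← h3]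
        ext a b
        simp only [Matrix.map_apply, Matrix.sum_apply, Matrix.smul_apply, smul_eq_mul, map_sum,
          map_mul, w]
      simp only
      rw [h1]
      exact Submodule.sum_mem _ fun i _ => Submodule.smul_mem _ _ (Submodule.subset_span ⟨i, rfl⟩)
    · rw [Submodule.span_le]
      rintro _ ⟨i, rfl⟩
      exact map_mem (v i).2
  rw [hspan, finrank_span_eq_card hw, Fintype.card_fin]

theorem t_DIM2 : S_DIM2 := by
  intro K _ _ N _ _ A M hM
  obtain ⟨f, hf⟩ := LinearMap.exists_leftInverse_of_injective (Algebra.linearMap K ℂ)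
    (LinearMap.ker_eq_bot.2 (algebraMap K ℂ).injective)
  have h1 : f 1 = 1 := by
    have h2 := LinearMap.congr_fun hf 1
    simpa using h2
  have h2 := slice_mem hM f
  rwa [map_alg_map, h1, one_smul] at h2

theorem t_DIM3 : S_DIM3 := by
  intro K _ _ N _ _ Y C hC A hA
  refine mem_of_slice fun f => (hC _).2 fun y hy => ?_
  rw [← mul_map_map, ← map_mul_map, hA y hy]

lemma slice_comm {K : Type} [Field K] [Algebra K ℂ] {n : Type} [Fintype n] [DecidableEq n]
    {m : ℕ} {S : Submodule K (Matrix (Fin m → n) (Fin m → n) K)} {x : Matrix n n ℂ}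
    (hx : ∀ A ∈ bcM K S, A * dpow x m = dpow x m * A) (f : ℂ →ₗ[K] K) :
    ∀ A ∈ S, A * dpowK K (x.map f) m = dpowK K (x.map f) m * A := by
  intro A hA
  rw [← dpow_map]
  have h1 := hx _ (map_mem hA)
  rw [← map_mul_map (dpow x m) A f, ← mul_map_map (dpow x m) A f, h1]

theorem t_DIM4 : S_DIM4 := by
  intro K _ _ n _ _ S T h x hx m A hA
  have h1 : ∀ f : ℂ →ₗ[K] K, ∀ m, ∀ A ∈ T m,
      A * dpowK K (x.map f) m = dpowK K (x.map f) m * A := fun f =>
    h (x.map f) (slice_comm hx f)
  have h2 : ∀ B ∈ T m, B.map (algebraMap K ℂ) * dpow x m = dpow x m * B.map (algebraMap K ℂ) := by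
    intro B hB
    refine eq_of_slices (K := K) fun f => ?_
    rw [map_mul_map, mul_map_map, dpow_map]
    exact h1 f m B hB
  unfold bcM at hA
  induction hA using Submodule.span_induction with
  | mem y hy =>
    obtain ⟨B, hB, rfl⟩ := hy
    exact h2 B hB
  | zero => rw [Matrix.zero_mul, Matrix.mul_zero]
  | add y z _ _ hy hz => rw [Matrix.add_mul, Matrix.mul_add, hy, hz]
  | smul c y _ hy => rw [Matrix.smul_mul, Matrix.mul_smul, hy]

theorem t_DIM5 : S_DIM5 := by
  intro K _ _ n _ _ S C hC x hx
  exact mem_of_slice fun f => (hC _).2 (slice_comm hx f)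

end Pool.Agent.E8helper63.TX
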